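import Pool.Agent.Helper42.PW.Goals3
import Pool.Agent.Helper53.PPB.BPRM

/-!
# Project W (MP_fc6b1e_nt), packet W_PRM: the conditions at the primes, with the primes above p
-/

set_option autoImplicit false

namespace Pool.Agent.Helper48.PW

open NumberField Module IsDedekindDomain
open Pool.Agent.Helper51.RP Pool.Agent.Helper11.PP
open Pool.Agent.Helper42.PW
open Pool.Agent.Helper40.RS (bel)
open Pool.Agent.Helper40.RD (bel_of_above)
open Pool.Agent.Helper22.PP (exists_above bel_bel)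

theorem p_mem_bel (p : ℕ) {K M : Type} [Field K] [NumberField K] [Field M] [NumberField M]
    [Algebra K M] (W : HeightOneSpectrum (𝓞 M)) (h : (p : 𝓞 M) ∈ W.asIdeal) :
    (p : 𝓞 K) ∈ (bel K W).asIdeal := by
  change algebraMap (𝓞 K) (𝓞 M) (p : 𝓞 K) ∈ W.asIdeal
  rwa [map_natCast]

theorem w_prm (h1 : N_DNS) : W_PRM := by
  intro p _ K M M₂ E M₂' _ _ _ _ _ _ _ _ _ _ _ _ _ _ _ _ _ _ _ _ _ _ _ hgen α hp htame hunr
  have hgal2 : IsGalois M₂ M₂' := IsGalois.tower_top_of_isGalois K M₂ M₂'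
  refine ⟨Pool.Agent.Helper53.PPB.b_prm p K M M₂ E M₂' hgen α htame hunr, ?_⟩
  intro W hW
  obtain ⟨W', hW'⟩ := exists_above (M' := M₂') W
  obtain rfl : bel M₂ W' = W := bel_of_above hW'
  have hpW : (p : 𝓞 M₂) ∈ (bel M₂ W').asIdeal := by
    have h2 := (HeightOneSpectrum.valuation_lt_one_iff_mem (K := M₂) (bel M₂ W') (p : 𝓞 M₂))
    refine h2.1 ?_
    have h3 : ((p : 𝓞 M₂) : M₂) = (p : M₂) := map_natCast (algebraMap (𝓞 M₂) M₂) p
    have h4 : (bel M₂ W').valuation M₂ ((p : 𝓞 M₂) : M₂) < 1 := by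
      rw [show ((p : 𝓞 M₂) : M₂) = (p : M₂) from h3]
      exact hW
    exact h4
  have hv : (p : 𝓞 K) ∈ (bel K W').asIdeal := by
    rw [← bel_bel (K := K) (N := M₂)]
    exact p_mem_bel p _ hpW
  have hV : FreeP K (bel E W') := by
    refine hp (bel K W') hv (bel E W') ?_
    rw [← bel_bel (K := K) (N := E)]
    rfl
  have hfree : FreeP M₂ W' := by
    intro g hg
    have h1 := Pool.Agent.Helper79.PP.fix_of_free (K := K) (A := E) W' hV (g.restrictScalars K) hg
    have h2 : g.restrictScalars K = 1 := hgen _ (fun x ↦ g.commutes x) h1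
    ext x
    exact congrArg (fun f : M₂' ≃ₐ[K] M₂' ↦ f x) h2
  obtain ⟨h3, h4⟩ := h1 M₂ M₂' (bel M₂ W') W' hW' hfree
  exact ⟨W', hW', h3, h4⟩

end Pool.Agent.Helper48.PW
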