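import Pool.Agent.Helper42.PW.Goals5
import Pool.Agent.Helper42.RD.EXA
import Pool.Agent.Helper15.PP.DTAU
import Pool.Agent.Helper11.PP.Core

/-!
# Project W (MP_fc6b1e_nt), packet W-W_ASM: from classes to characters
-/

set_option autoImplicit false

namespace Pool.Agent.Helper48.PW

open NumberField Polynomial Module IsDedekindDomain
open Pool.Agent.Helper51.RP Pool.Agent.Helper42.RD Pool.Agent.Helper42.PP Pool.Agent.Helper42.PP1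
open Pool.Agent.Helper42.PB Pool.Agent.Helper11.PP Pool.Agent.Helper11.LE Pool.Agent.Helper42.PW
open Pool.Agent.Helper38.FD (Chr CutsOut)
open Pool.Agent.Helper38.ND (cnt2)
open Pool.Agent.Helper77.PPB (ChN)

/-- The abstract form. -/
theorem coreW {Cl Fi : Type} (nf : Cl → Fi) (A' B : Set Cl) (A ZN G : Set Fi)
    (cd : Fi → ℕ) (f : Cl → ℕ) (hAN : A ⊆ ZN) (hB : ∀ c ∈ B, nf c ∈ ZN)
    (hinj : ∀ c ∈ B, ∀ c' ∈ B, nf c = nf c' → c = c')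
    (hsur : ∀ x ∈ ZN, ∃ c ∈ B, nf c = x)
    (hA : ∀ c ∈ B, (c ∈ A' ↔ nf c ∈ A)) (hcd : ∀ c ∈ B, cd (nf c) = f c)
    (hpro : ∃ C : ℝ, 0 < C ∧ ∀ X : ℝ, ({c | c ∈ B ∧ (f c : ℝ) ≤ X}.ncard : ℝ) ≤
      C * ({c | c ∈ B ∩ A' ∧ (f c : ℝ) ≤ C * X}.ncard + 1))
    (n : ℕ) (Bd : Fin n → Set Cl) (Z : Set Cl) (θ : Fin n → ℝ) (hZ : Z.Finite)
    (hG : ∀ c ∈ B, nf c ∈ A → c ∉ Z → nf c ∉ G → ∃ r, c ∈ Bd r)
    (hfB : ∀ X : ℝ, {c | c ∈ B ∧ (f c : ℝ) ≤ X}.Finite)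
    (hdb : ∃ C X₀ : ℝ, 0 < X₀ ∧ ∀ X : ℝ, X₀ ≤ X →
      ({c | c ∈ B ∩ A' ∧ (f c : ℝ) ≤ 2 * X}.ncard : ℝ) ≤
        C * {c | c ∈ B ∩ A' ∧ (f c : ℝ) ≤ X}.ncard)
    (hinf : (B ∩ A').Infinite)
    (hab : ∀ r, ∀ η : ℝ, 0 < η → ∀ᶠ X : ℝ in Filter.atTop,
      ({c | c ∈ B ∩ A' ∩ Bd r ∧ (f c : ℝ) ≤ X}.ncard : ℝ) ≤
        (θ r + η) * {c | c ∈ B ∩ A' ∧ (f c : ℝ) ≤ X}.ncard) :
    (∀ X : ℕ, {x | x ∈ ZN ∧ cd x ≤ X}.Finite) ∧
    (∀ η : ℝ, 0 < η → ∀ᶠ X : ℕ in Filter.atTop,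
      ({x | x ∈ {x | x ∈ A ∧ x ∉ G} ∧ cd x ≤ X}.ncard : ℝ) ≤
        (∑ r, θ r + η) * {x | x ∈ A ∧ cd x ≤ X}.ncard) ∧
    (∃ c : ℝ, 0 < c ∧ ∀ᶠ X : ℕ in Filter.atTop,
      0 < ({x | x ∈ ZN ∧ cd x ≤ X}.ncard : ℝ) ∧
      c * {x | x ∈ ZN ∧ cd x ≤ X}.ncard ≤ {x | x ∈ A ∧ cd x ≤ X}.ncard) := by
  have hfin : ∀ X : ℝ, {c | c ∈ B ∩ A' ∧ (f c : ℝ) ≤ X}.Finite := fun X =>
    (hfB X).subset fun c hc => ⟨hc.1.1, hc.2⟩
  set a : ℝ → ℕ := fun X => {c | c ∈ B ∩ A' ∧ (f c : ℝ) ≤ X}.ncard with ha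
  have hmono : ∀ X Y : ℝ, X ≤ Y → a X ≤ a Y := fun X Y hXY =>
    Set.ncard_le_ncard (fun N hN => ⟨hN.1, hN.2.trans hXY⟩) (hfin Y)
  -- the counting functions agree
  have hb : ∀ Y : ℕ, {x | x ∈ A ∧ cd x ≤ Y}.ncard = a (Y : ℝ) := by
    intro Y
    have e : {x | x ∈ A ∧ cd x ≤ Y} = nf '' {c | c ∈ B ∩ A' ∧ (f c : ℝ) ≤ Y} := by
      ext x
      constructor
      · rintro ⟨hx, hxY⟩
        obtain ⟨c, hc, rfl⟩ := hsur x (hAN hx)
        refine ⟨c, ⟨⟨hc, (hA c hc).2 hx⟩, ?_⟩, rfl⟩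
        rw [← hcd c hc]
        exact_mod_cast hxY
      · rintro ⟨c, ⟨hc, hcY⟩, rfl⟩
        refine ⟨(hA c hc.1).1 hc.2, ?_⟩
        rw [hcd c hc.1]
        exact_mod_cast hcY
    rw [e]
    refine Set.InjOn.ncard_image ?_
    intro c hc c' hc' h
    exact hinj c hc.1.1 c' hc'.1.1 h
  have hNe : ∀ Y : ℕ, {x | x ∈ ZN ∧ cd x ≤ Y} = nf '' {c | c ∈ B ∧ (f c : ℝ) ≤ Y} := by
    intro Y
    ext x
    constructor
    · rintro ⟨hx, hxY⟩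
      obtain ⟨c, hc, rfl⟩ := hsur x hx
      refine ⟨c, ⟨hc, ?_⟩, rfl⟩
      rw [← hcd c hc]
      exact_mod_cast hxY
    · rintro ⟨c, ⟨hc, hcY⟩, rfl⟩
      refine ⟨hB c hc, ?_⟩
      rw [hcd c hc]
      exact_mod_cast hcY
  have hfN : ∀ X : ℕ, {x | x ∈ ZN ∧ cd x ≤ X}.Finite := by
    intro X
    rw [hNe X]
    exact (hfB X).image _
  -- `a` tends to infinity
  have hgrow : ∀ M : ℝ, ∀ᶠ X : ℝ in Filter.atTop, M ≤ a X := by
    intro M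
    obtain ⟨F, hF, hcard⟩ := hinf.exists_subset_card_eq (⌈M⌉₊)
    filter_upwards [Filter.eventually_ge_atTop ((∑ c ∈ F, f c : ℕ) : ℝ)] with X hX
    have h1 : (F : Set Cl) ⊆ {c | c ∈ B ∩ A' ∧ (f c : ℝ) ≤ X} := by
      intro c hc
      refine ⟨hF hc, le_trans ?_ hX⟩
      have h3 : f c ≤ ∑ c ∈ F, f c :=
        Finset.single_le_sum (f := f) (fun _ _ => Nat.zero_le _) hc
      exact_mod_cast h3
    have h2 := Set.ncard_le_ncard h1 (hfin X)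
    rw [Set.ncard_coe_finset, hcard] at h2
    exact (Nat.le_ceil M).trans (by exact_mod_cast h2)
  refine ⟨hfN, ?_, ?_⟩
  · intro η hη
    have hη' : 0 < η / (n + 1) := by positivity
    have hev : ∀ᶠ X : ℝ in Filter.atTop, ∀ r,
        ({c | c ∈ B ∩ A' ∩ Bd r ∧ (f c : ℝ) ≤ X}.ncard : ℝ) ≤ (θ r + η / (n + 1)) * a X :=
      Filter.eventually_all.2 fun r => hab r _ hη'
    have hev2 := hgrow ((Z.ncard : ℝ) / (η / (n + 1)))
    have hev3 := tendsto_natCast_atTop_atTop.eventually (hev.and hev2)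
    filter_upwards [hev3] with X hX
    obtain ⟨hX1, hX2⟩ := hX
    rw [hb]
    have e : {x | x ∈ {x | x ∈ A ∧ x ∉ G} ∧ cd x ≤ X} ⊆
        nf '' (Z ∪ ⋃ r, {c | c ∈ B ∩ A' ∩ Bd r ∧ (f c : ℝ) ≤ X}) := by
      rintro x ⟨⟨hx, hxG⟩, hxX⟩
      obtain ⟨c, hc, rfl⟩ := hsur x (hAN hx)
      refine ⟨c, ?_, rfl⟩
      by_cases hcZ : c ∈ Z
      · exact Or.inl hcZ
      · obtain ⟨r, hr⟩ := hG c hc hx hcZ hxG
        refine Or.inr (Set.mem_iUnion.2 ⟨r, ⟨⟨hc, (hA c hc).2 hx⟩, hr⟩, ?_⟩)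
        rw [← hcd c hc]
        exact_mod_cast hxX
    have hfU : (⋃ r, {c | c ∈ B ∩ A' ∩ Bd r ∧ (f c : ℝ) ≤ X}).Finite :=
      Set.finite_iUnion fun r => (hfin X).subset fun c hc => ⟨hc.1.1, hc.2⟩
    have h1 : {x | x ∈ {x | x ∈ A ∧ x ∉ G} ∧ cd x ≤ X}.ncard ≤
        Z.ncard + ∑ r, {c | c ∈ B ∩ A' ∩ Bd r ∧ (f c : ℝ) ≤ X}.ncard :=
      calc {x | x ∈ {x | x ∈ A ∧ x ∉ G} ∧ cd x ≤ X}.ncard
          ≤ (nf '' (Z ∪ ⋃ r, {c | c ∈ B ∩ A' ∩ Bd r ∧ (f c : ℝ) ≤ X})).ncard :=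
            Set.ncard_le_ncard e ((hZ.union hfU).image _)
        _ ≤ (Z ∪ ⋃ r, {c | c ∈ B ∩ A' ∩ Bd r ∧ (f c : ℝ) ≤ X}).ncard :=
            Set.ncard_image_le (hZ.union hfU)
        _ ≤ Z.ncard + (⋃ r, {c | c ∈ B ∩ A' ∩ Bd r ∧ (f c : ℝ) ≤ X}).ncard :=
            Set.ncard_union_le _ _
        _ ≤ _ := Nat.add_le_add_left (Set.ncard_iUnion_le_of_fintype _) _
    have h2 : ({x | x ∈ {x | x ∈ A ∧ x ∉ G} ∧ cd x ≤ X}.ncard : ℝ) ≤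
        Z.ncard + ∑ r, ({c | c ∈ B ∩ A' ∩ Bd r ∧ (f c : ℝ) ≤ X}.ncard : ℝ) := by
      exact_mod_cast h1
    refine h2.trans ?_
    have h3 : (Z.ncard : ℝ) ≤ η / (n + 1) * a X := by
      rw [div_le_iff₀ hη'] at hX2
      linarith
    have h4 : ∑ r, ({c | c ∈ B ∩ A' ∩ Bd r ∧ (f c : ℝ) ≤ X}.ncard : ℝ) ≤
        ∑ r, (θ r + η / (n + 1)) * a X := Finset.sum_le_sum fun r _ => hX1 r
    have h5 : ∑ r : Fin n, (θ r + η / (n + 1)) * (a X : ℝ) =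
        (∑ r, θ r) * a X + n * (η / (n + 1)) * a X := by
      rw [← Finset.sum_mul, Finset.sum_add_distrib, Finset.sum_const, Finset.card_univ,
        Fintype.card_fin, nsmul_eq_mul]
      ring
    have h6 : η / (n + 1) * (a X : ℝ) + n * (η / (n + 1)) * a X = η * a X := by
      have h7 : (n : ℝ) + 1 ≠ 0 := by positivity
      field_simp
      ring
    rw [h5] at h4
    calc (Z.ncard : ℝ) + ∑ r, ({c | c ∈ B ∩ A' ∩ Bd r ∧ (f c : ℝ) ≤ X}.ncard : ℝ)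
        ≤ η / (n + 1) * a X + ((∑ r, θ r) * a X + n * (η / (n + 1)) * a X) := add_le_add h3 h4
      _ = (∑ r, θ r) * a X + (η / (n + 1) * a X + n * (η / (n + 1)) * a X) := by ring
      _ = (∑ r, θ r + η) * a X := by rw [h6]; ring
  · obtain ⟨C, X₀, hX₀, hdb⟩ := hdb
    set C' : ℝ := max C 1 with hC'
    have hC1 : 1 ≤ C' := le_max_right _ _
    have hit : ∀ (l : ℕ) (X : ℝ), X₀ ≤ X → (a (2 ^ l * X) : ℝ) ≤ C' ^ l * a X := by
      intro l X hX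
      induction l with
      | zero => simp
      | succ l ih =>
        have h1 : X₀ ≤ 2 ^ l * X := by
          have h2 : (1 : ℝ) ≤ 2 ^ l := one_le_pow₀ (by norm_num)
          nlinarith
        have h2 : (a (2 * (2 ^ l * X)) : ℝ) ≤ C * a (2 ^ l * X) := hdb _ h1
        have h3 : (2 : ℝ) * (2 ^ l * X) = 2 ^ (l + 1) * X := by ring
        rw [h3] at h2
        calc (a (2 ^ (l + 1) * X) : ℝ) ≤ C * a (2 ^ l * X) := h2
          _ ≤ C' * a (2 ^ l * X) :=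
            mul_le_mul_of_nonneg_right (le_max_left _ _) (Nat.cast_nonneg _)
          _ ≤ C' * (C' ^ l * a X) := mul_le_mul_of_nonneg_left ih (by linarith)
          _ = C' ^ (l + 1) * a X := by ring
    obtain ⟨D, hD, hpr⟩ := hpro
    obtain ⟨l, hl⟩ := pow_unbounded_of_one_lt D (by norm_num : (1 : ℝ) < 2)
    have hM : (0 : ℝ) < D * (C' ^ l + 1) := by positivity
    refine ⟨1 / (D * (C' ^ l + 1)), by positivity, ?_⟩
    have hev3 := tendsto_natCast_atTop_atTop.eventually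
      ((hgrow 1).and (Filter.eventually_ge_atTop X₀))
    filter_upwards [hev3] with X hX2
    obtain ⟨hX2, hX3⟩ := hX2
    have hpos : 1 ≤ {x | x ∈ ZN ∧ cd x ≤ X}.ncard := by
      have h1 : {x | x ∈ A ∧ cd x ≤ X}.ncard ≤ {N | N ∈ ZN ∧ cd N ≤ X}.ncard :=
        Set.ncard_le_ncard (fun x hx => ⟨hAN hx.1, hx.2⟩) (hfN X)
      rw [hb] at h1
      have h2 : 1 ≤ a X := by exact_mod_cast hX2
      omega
    refine ⟨by exact_mod_cast hpos, ?_⟩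
    have h1 : ({x | x ∈ ZN ∧ cd x ≤ X}.ncard : ℝ) ≤ D * (a (D * X) + 1) := by
      refine le_trans ?_ (hpr X)
      rw [hNe X]
      exact_mod_cast Set.ncard_image_le (hfB X)
    have h2 : (a (D * X) : ℝ) ≤ C' ^ l * a X := by
      refine le_trans ?_ (hit l X hX3)
      have h3 : D * (X : ℝ) ≤ 2 ^ l * (X : ℝ) :=
        mul_le_mul_of_nonneg_right hl.le (Nat.cast_nonneg _)
      exact_mod_cast hmono _ _ h3
    rw [hb, one_div, inv_mul_le_iff₀ hM]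
    refine h1.trans ?_
    rw [mul_assoc]
    refine mul_le_mul_of_nonneg_left ?_ hD.le
    rw [add_mul, one_mul]
    have h3 : (1 : ℝ) ≤ a X := hX2
    linarith

theorem w_asm (h1 : W_LDT) (h2 : W_RAM) (h3 : W_PRO) : Pool.Agent.Helper42.PW.W_ASM := by
  intro p hp K K₁ _ _ _ _ _ ε hcyc j hj εk hεk nf cf k1 k2 k3 k4 A hA n Bd G Z θ hθ hZ hG hab h0
  classical
  have hp0 : (p : K) ≠ 0 := by exact_mod_cast hp.out.ne_zero
  have hSf : {v : HeightOneSpectrum (𝓞 K) | v.valuation K (p : K) < 1}.Finite :=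
    (Pool.Agent.Helper99.RS.finite_bad hp0).subset fun v hv => ne_of_lt hv
  set Sp : Finset (HeightOneSpectrum (𝓞 K)) := hSf.toFinset with hSp
  have hSpm : ∀ v, v ∈ Sp ↔ v.valuation K (p : K) < 1 := by
    intro v
    rw [hSp, Set.Finite.mem_toFinset]
    rfl
  -- the primes of `K₁` above `p`
  have hup : up K₁ Sp = {W : HeightOneSpectrum (𝓞 K₁) | W.valuation K₁ (p : K₁) < 1} := by
    have e1 : ∀ W : HeightOneSpectrum (𝓞 K₁), (W.valuation K₁ (p : K₁) < 1 ↔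
        (Pool.Agent.Helper40.RS.bel K W).valuation K (p : K) < 1) := by
      intro W
      have e2 : W.valuation K₁ (p : K₁) < 1 ↔ (p : 𝓞 K₁) ∈ W.asIdeal := by
        rw [← W.valuation_lt_one_iff_mem (K := K₁)]
        simp
      have e3 : (Pool.Agent.Helper40.RS.bel K W).valuation K (p : K) < 1 ↔
          (p : 𝓞 K) ∈ (Pool.Agent.Helper40.RS.bel K W).asIdeal := by
        rw [← (Pool.Agent.Helper40.RS.bel K W).valuation_lt_one_iff_mem (K := K)]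
        simp
      rw [e2, e3]
      exact natCast_bel p W
    ext W
    constructor
    · rintro ⟨v, hv, hWv⟩
      have e : Pool.Agent.Helper40.RS.bel K W = v := HeightOneSpectrum.ext hWv
      rw [Set.mem_ofPred_eq, e1, e]
      exact (hSpm v).1 hv
    · intro hW
      exact ⟨Pool.Agent.Helper40.RS.bel K W, (hSpm _).2 ((e1 W).1 hW), above_bel W⟩
  obtain ⟨f, hf, hfc⟩ := h2 p K K₁ ε hcyc j hj nf k1 k2 Sp hSpm
  set gz := Pool.Agent.Helper15.PP.gZ p (up K₁ Sp) with hgz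
  -- the local conditions
  set A' : Set (ClP p K₁) := {c | ∃ a a' : K₁ˣ, OmType p K ε (a : K₁) ∧ OmType p K ε (a' : K₁) ∧
    clp p a = c ∧ clp p a' ∈ BSet p K ε ∧ (nf (clp p a'), cf (clp p a')) ∈ A ∧
    LocS p (up K₁ Sp) (a / a')} with hA'
  have hcl : ∀ a b : K₁ˣ, clp p a = clp p b → a / b ∈ gz := by
    intro a b hab
    have e := QuotientGroup.eq.1 hab
    obtain ⟨y, hy⟩ := e
    have hy' : y ^ p = a⁻¹ * b := hy
    refine ⟨y, fun w _ => ?_⟩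
    have e2 : ((a / b : K₁ˣ) : K₁) * (y : K₁) ^ p = 1 := by
      have e3 : (a / b) * y ^ p = 1 := by
        rw [hy']
        rw [div_eq_mul_inv, mul_assoc, mul_comm b⁻¹, mul_assoc, mul_inv_cancel, mul_one,
          mul_inv_cancel]
      have := congrArg (fun u : K₁ˣ => (u : K₁)) e3
      simpa using this
    rw [e2, sub_self, map_zero]
    exact ⟨zero_lt_one, zero_le⟩
  have hLocA' : LocA p K ε Sp A' := by
    rintro a a' ha ha' hl ⟨b, b', hb, hb', hbc, hb1, hb2, hbl⟩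
    refine ⟨a', b', ha', hb', rfl, hb1, hb2, ?_⟩
    have e1 : a' / b' = (a / a')⁻¹ * (a / b) * (b / b') := by
      rw [inv_div, div_mul_div_cancel, div_mul_div_cancel]
    have e2 : a / b ∈ gz := hcl a b hbc.symm
    have e3 : a' / b' ∈ gz := by
      rw [e1]
      exact gz.mul_mem (gz.mul_mem (gz.inv_mem hl) e2) hbl
    exact e3
  have hiff : ∀ c ∈ BSet p K ε, (c ∈ A' ↔ (nf c, cf c) ∈ A) := by
    intro c hc
    constructor
    · rintro ⟨a, a', ha, ha', rfl, h4, h5, h6⟩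
      refine hA.loc _ h5 _ ⟨(k1 _ hc).1, (k3 _ hc).1⟩ ?_
      intro σ
      refine h1 p K K₁ ε hcyc j hj εk hεk nf cf (fun c hc => (k1 c hc).1) k3 a' a h4 hc ?_ σ
      rw [← hup]
      have e : a' / a = (a / a')⁻¹ := (inv_div _ _).symm
      rw [e]
      exact gz.inv_mem h6
    · intro h
      obtain ⟨hc1, a, rfl, ha⟩ := hc
      refine ⟨a, a, ha, ha, rfl, ⟨hc1, a, rfl, ha⟩, h, ?_⟩
      rw [div_self']
      exact gz.one_mem
  have hsur : ∀ x ∈ ChN p K, ∃ c ∈ BSet p K ε, (nf c, cf c) = x := by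
    rintro ⟨N, φ⟩ ⟨hN, hφ⟩
    obtain ⟨c, ⟨hc1, hc2, hc3⟩, -⟩ := k4 N hN φ hφ
    exact ⟨c, hc1, Prod.ext hc2 hc3⟩
  have hinj : ∀ c ∈ BSet p K ε, ∀ c' ∈ BSet p K ε, (nf c, cf c) = (nf c', cf c') → c = c' := by
    intro c hc c' hc' h
    obtain ⟨d, -, hu⟩ := k4 (nf c) (k1 c hc).1 (cf c) (k3 c hc).1
    rw [hu c ⟨hc, rfl, rfl⟩]
    exact (hu c' ⟨hc', (congrArg Prod.fst h).symm, (congrArg Prod.snd h).symm⟩).symm
  obtain ⟨x₀, hx₀⟩ := hA.ne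
  obtain ⟨c₀, hc₀, hc₀x⟩ := hsur x₀ (hA.sub hx₀)
  have hc₀A : c₀ ∈ A' := (hiff c₀ hc₀).2 (by rw [hc₀x]; exact hx₀)
  have hex : ∃ a : K₁ˣ, OmType p K ε (a : K₁) ∧ clp p a ∈ A' := by
    obtain ⟨-, a, ha, ho⟩ := hc₀
    exact ⟨a, ho, by rw [ha]; exact hc₀A⟩
  have hexu : ∃ a : K₁ˣ, OmType p K ε (a : K₁) ∧ clp p a ∈ (Set.univ : Set (ClP p K₁)) := by
    obtain ⟨a, ho, -⟩ := hex
    exact ⟨a, ho, Set.mem_univ _⟩
  have hLocU : LocA p K ε Sp (Set.univ : Set (ClP p K₁)) := fun _ _ _ _ _ _ => Set.mem_univ _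
  have hU := h0 Sp Set.univ f hLocU hexu hf
  have hfB : ∀ X : ℝ, {c | c ∈ BSet p K ε ∧ (f c : ℝ) ≤ X}.Finite := by
    intro X
    have := hU.1 X
    rwa [Set.inter_univ] at this
  obtain ⟨-, hdb, hinf, -⟩ := h0 Sp A' f hLocA' hex hf
  have hpro := h3 p K K₁ ε hcyc.prim Sp A' f hLocA' hex hf hfB
  exact coreW (fun c => (nf c, cf c)) A' (BSet p K ε) A (ChN p K) G (fun x => cond K x.1) f
    hA.sub (fun c hc => ⟨(k1 c hc).1, (k3 c hc).1⟩) hinj hsur hiff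
    (fun c hc => (hfc c hc).symm) hpro n Bd Z θ hZ hG hfB hdb hinf
    (fun r => (hab r Sp A' f hLocA' hex hf).2.2.2)

end Pool.Agent.Helper48.PW
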